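import Mathlib

set_option autoImplicit false

namespace Pool.Agent.P.MP_a5df39_co

open Finset

lemma one_dim {α : Type} [Fintype α] [Nonempty α] (G H : α → ℝ) (hG : ∀ a, 0 ≤ G a)
    (hH : ∀ a, 0 ≤ H a) (K lam : ℝ) (hK : 0 ≤ K) (hl : 1 ≤ lam)
    (h1 : ∀ a, G a * H a ≤ K) (h2 : ∀ a b, G a * H b ≤ K * lam) :
    (∑ a, G a) * (∑ a, H a) ≤ K * ((1 + lam) ^ 2 / (4 * lam)) * (Fintype.card α : ℝ) ^ 2 := by
  obtain ⟨a0, -, ha0⟩ := exists_max_image univ G univ_nonempty
  obtain ⟨b0, -, hb0⟩ := exists_max_image univ H univ_nonempty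
  set A := G a0 with hA
  set B := H b0 with hB
  set c : ℝ := (Fintype.card α : ℝ) with hc
  have hc0 : 0 ≤ c := Nat.cast_nonneg _
  have hA0 : 0 ≤ A := hG a0
  have hB0 : 0 ≤ B := hH b0
  have hSG0 : 0 ≤ ∑ a, G a := sum_nonneg (fun a _ => hG a)
  have hSH0 : 0 ≤ ∑ a, H a := sum_nonneg (fun a _ => hH a)
  have hl0 : 0 < lam := by linarith
  have hk1 : 1 ≤ (1 + lam) ^ 2 / (4 * lam) := by
    rw [le_div_iff₀ (by positivity)]
    nlinarith [sq_nonneg (1 - lam)]
  by_cases hP : A * B ≤ K
  · have hSG : ∑ a, G a ≤ c * A := by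
      calc ∑ a, G a ≤ ∑ _a : α, A := sum_le_sum (fun a _ => ha0 a (mem_univ a))
        _ = c * A := by simp [hc]
    have hSH : ∑ a, H a ≤ c * B := by
      calc ∑ a, H a ≤ ∑ _a : α, B := sum_le_sum (fun a _ => hb0 a (mem_univ a))
        _ = c * B := by simp [hc]
    calc (∑ a, G a) * (∑ a, H a) ≤ (c * A) * (c * B) :=
          mul_le_mul hSG hSH hSH0 (by positivity)
      _ = (A * B) * 1 * c ^ 2 := by ring
      _ ≤ _ := by gcongr
  · push Not at hP
    have hP0 : 0 < A * B := lt_of_le_of_lt hK hP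
    have hP2 : A * B ≤ K * lam := h2 a0 b0
    have hsum : B * (∑ a, G a) + A * (∑ a, H a) ≤ c * (A * B + K) := by
      rw [mul_sum, mul_sum, ← sum_add_distrib]
      calc ∑ a, (B * G a + A * H a) ≤ ∑ _a : α, (A * B + K) := by
            refine sum_le_sum (fun a _ => ?_)
            have e1 := ha0 a (mem_univ a)
            have e2 := hb0 a (mem_univ a)
            have e3 := h1 a
            nlinarith [mul_nonneg (sub_nonneg.mpr e1) (sub_nonneg.mpr e2)]
        _ = c * (A * B + K) := by simp [hc]; ring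
    have h4 : 4 * (A * B) * ((∑ a, G a) * (∑ a, H a)) ≤ (c * (A * B + K)) ^ 2 := by
      calc 4 * (A * B) * ((∑ a, G a) * (∑ a, H a))
          ≤ (B * (∑ a, G a) + A * (∑ a, H a)) ^ 2 := by
            nlinarith [sq_nonneg (B * (∑ a, G a) - A * (∑ a, H a))]
        _ ≤ _ := by gcongr
    have h5 : (A * B + K) ^ 2 * lam ≤ K * (A * B) * (1 + lam) ^ 2 := by
      have e1 : 0 ≤ K * lam - A * B := by linarith
      have e2 : 0 ≤ A * B * lam - K := by nlinarith
      nlinarith [mul_nonneg e1 e2]
    have h6 : 4 * (A * B) * lam * ((∑ a, G a) * (∑ a, H a)) ≤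
        4 * (A * B) * lam * (K * ((1 + lam) ^ 2 / (4 * lam)) * c ^ 2) := by
      calc 4 * (A * B) * lam * ((∑ a, G a) * (∑ a, H a))
          = (4 * (A * B) * ((∑ a, G a) * (∑ a, H a))) * lam := by ring
        _ ≤ (c * (A * B + K)) ^ 2 * lam := by gcongr
        _ = c ^ 2 * ((A * B + K) ^ 2 * lam) := by ring
        _ ≤ c ^ 2 * (K * (A * B) * (1 + lam) ^ 2) := by gcongr
        _ = _ := by field_simp
    exact le_of_mul_le_mul_left h6 (by positivity)

lemma sum_cons {α : Type} [Fintype α] (n : ℕ) (G : (Fin (n + 1) → α) → ℝ) :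
    ∑ x, G x = ∑ x' : Fin n → α, ∑ a : α, G (Fin.cons a x') := by
  rw [← (Fin.consEquiv (fun _ : Fin (n + 1) => α)).sum_comp, Fintype.sum_prod_type, sum_comm]
  rfl

lemma multi_dim {α : Type} [Fintype α] [Nonempty α] [DecidableEq α] (lam : ℝ) (hl : 1 ≤ lam)
    (n : ℕ) : ∀ (G H : (Fin n → α) → ℝ) (K : ℝ), (∀ x, 0 ≤ G x) → (∀ x, 0 ≤ H x) → 0 ≤ K →
      (∀ x y, G x * H y ≤ K * ∏ i, (if x i = y i then (1 : ℝ) else lam)) →
      (∑ x, G x) * (∑ x, H x) ≤
        K * (((1 + lam) ^ 2 / (4 * lam)) * (Fintype.card α : ℝ) ^ 2) ^ n := by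
  induction n with
  | zero =>
    intro G H K _ _ _ h
    simpa using h default default
  | succ n ih =>
    intro G H K hG hH hK h
    rw [sum_cons, sum_cons]
    have hl0 : 0 < lam := by linarith
    have := ih (fun x' => ∑ a : α, G (Fin.cons a x')) (fun x' => ∑ a : α, H (Fin.cons a x'))
      (K * (((1 + lam) ^ 2 / (4 * lam)) * (Fintype.card α : ℝ) ^ 2))
      (fun x => sum_nonneg (fun a _ => hG _)) (fun x => sum_nonneg (fun a _ => hH _))
      (by positivity) ?_
    · calc _ ≤ _ := this
        _ = _ := by ring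
    · intro x y
      have hw : 0 ≤ ∏ i, (if x i = y i then (1 : ℝ) else lam) :=
        prod_nonneg (fun i _ => by split_ifs <;> linarith)
      have := one_dim (fun a => G (Fin.cons a x)) (fun a => H (Fin.cons a y)) (fun a => hG _)
        (fun a => hH _) (K * ∏ i, (if x i = y i then (1 : ℝ) else lam)) lam (by positivity) hl
        ?_ ?_
      · calc _ ≤ _ := this
          _ = _ := by ring
      · intro a
        have := h (Fin.cons a x) (Fin.cons a y)
        rw [Fin.prod_univ_succ] at this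
        simpa using this
      · intro a b
        have := h (Fin.cons a x) (Fin.cons b y)
        rw [Fin.prod_univ_succ] at this
        simp only [Fin.cons_zero, Fin.cons_succ] at this
        refine this.trans ?_
        have h1 : (if a = b then (1 : ℝ) else lam) ≤ lam := by split_ifs <;> linarith
        calc K * ((if a = b then (1 : ℝ) else lam) * ∏ i, (if x i = y i then (1 : ℝ) else lam))
            ≤ K * (lam * ∏ i, (if x i = y i then (1 : ℝ) else lam)) := by gcongr
          _ = _ := by ring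

/-- Two large subsets of a product space contain points at small Hamming distance. -/
lemma close_pair {α : Type} [Fintype α] [Nonempty α] [DecidableEq α] (n t : ℕ) (hn : 0 < n)
    (X Y : Finset (Fin n → α))
    (h : Real.exp (-((t : ℝ) ^ 2 / n)) * ((Fintype.card α : ℝ) ^ n) ^ 2 < X.card * Y.card) :
    ∃ x ∈ X, ∃ y ∈ Y, (univ.filter (fun i => x i ≠ y i)).card < t := by
  by_contra hcon
  push Not at hcon
  have hn' : (0 : ℝ) < n := by exact_mod_cast hn
  set s : ℝ := 2 * t / n with hs
  have hs0 : 0 ≤ s := by positivity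
  have hl : 1 ≤ Real.exp s := Real.one_le_exp hs0
  have key := multi_dim (α := α) (Real.exp s) hl n (fun x => if x ∈ X then 1 else 0)
    (fun y => if y ∈ Y then 1 else 0) (Real.exp (-(s * t))) (fun x => by positivity)
    (fun x => by positivity) (Real.exp_pos _).le ?_
  · simp only [sum_ite_mem, univ_inter, sum_const, nsmul_eq_mul, mul_one] at key
    have hk : (1 + Real.exp s) ^ 2 / (4 * Real.exp s) ≤ Real.exp (s ^ 2 / 4) := by
      have h1 := Real.cosh_le_exp_half_sq (s / 2)
      have h2 : (1 + Real.exp s) ^ 2 / (4 * Real.exp s) = Real.cosh (s / 2) ^ 2 := by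
        have h3 : Real.exp s = Real.exp (s / 2) ^ 2 := by
          rw [← Real.exp_nat_mul]; congr 1; push_cast; ring
        rw [Real.cosh_eq, Real.exp_neg, h3]
        have := Real.exp_pos (s / 2)
        field_simp
        ring
      rw [h2]
      calc Real.cosh (s / 2) ^ 2 ≤ Real.exp ((s / 2) ^ 2 / 2) ^ 2 := by
            gcongr
        _ = _ := by rw [← Real.exp_nat_mul]; congr 1; push_cast; ring
    have h3 : Real.exp (-(s * t)) *
        (((1 + Real.exp s) ^ 2 / (4 * Real.exp s)) * (Fintype.card α : ℝ) ^ 2) ^ n ≤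
        Real.exp (-((t : ℝ) ^ 2 / n)) * ((Fintype.card α : ℝ) ^ n) ^ 2 := by
      calc _ ≤ Real.exp (-(s * t)) * (Real.exp (s ^ 2 / 4) * (Fintype.card α : ℝ) ^ 2) ^ n := by
            gcongr
        _ = (Real.exp (-(s * t)) * Real.exp (s ^ 2 / 4) ^ n) * ((Fintype.card α : ℝ) ^ n) ^ 2 := by
            rw [mul_pow, ← pow_mul, ← pow_mul, mul_comm 2 n]; ring
        _ = _ := by
            rw [← Real.exp_nat_mul, ← Real.exp_add]
            congr 2
            rw [hs]; field_simp; ring
    linarith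
  · intro x y
    by_cases hx : x ∈ X
    · by_cases hy : y ∈ Y
      · simp only [hx, hy, if_true, mul_one]
        have h1 : ∏ i, (if x i = y i then (1 : ℝ) else Real.exp s) =
            Real.exp s ^ (univ.filter (fun i => x i ≠ y i)).card := by
          rw [prod_ite]; simp
        rw [h1, ← Real.exp_nat_mul, ← Real.exp_add]
        apply Real.one_le_exp
        have : (t : ℝ) ≤ (univ.filter (fun i => x i ≠ y i)).card := by exact_mod_cast hcon x hx y hy
        nlinarith
      · simp only [hy, if_false, mul_zero]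
        exact mul_nonneg (Real.exp_pos _).le (prod_nonneg (fun i _ => by split_ifs <;> linarith))
    · simp only [hx, if_false, zero_mul]
      exact mul_nonneg (Real.exp_pos _).le (prod_nonneg (fun i _ => by split_ifs <;> linarith))

end Pool.Agent.P.MP_a5df39_co
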