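import Mathlib
import Pool.Agent.P.MP_a5df39_co.Core

set_option autoImplicit false

namespace Pool.Agent.P.MP_a5df39_co

open Finset

lemma zero_eq_two : (0 : ZMod 2) = 1 + 1 := by decide

/-- Discrete Borsuk-Ulam theorem on the boundary of a large lattice cube. -/
lemma shell (d M : ℕ) (hM : 0 < M) (Φ : (Fin (d + 2) → ℤ) → Fin (d + 1) → ℝ) (E : ℝ)
    (hE : 0 ≤ E) (hodd : ∀ z i, Φ (-z) i = -Φ z i)
    (hlip : ∀ u v : Fin (d + 2) → ℤ, (∀ j, |u j - v j| ≤ ((d + 2 : ℕ) : ℤ)) → ∀ i, |Φ u i - Φ v i| ≤ 2 * E) :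
    ∃ z : Fin (d + 2) → ℤ, (∃ j, |z j| = (M : ℤ)) ∧ ∀ i, |Φ z i| ≤ E := by
  classical
  by_contra hcon
  push Not at hcon
  have hM' : (0 : ℤ) < M := by exact_mod_cast hM
  have hpick : ∀ f : Fin (d + 1) → ℝ, ∃ i, ∀ i', f i' ≤ f i := fun f => by
    obtain ⟨i, -, hi⟩ := exists_max_image univ f univ_nonempty
    exact ⟨i, fun i' => hi i' (mem_univ _)⟩
  choose pick hpick using hpick
  let idx : (Fin (d + 2) → ℤ) → Fin (d + 1) := fun z => pick (fun i => |Φ z i|)
  have hidx : ∀ z : Fin (d + 2) → ℤ, (∃ j, |z j| = (M : ℤ)) → E < |Φ z (idx z)| := fun z hz => by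
    obtain ⟨i, hi⟩ := hcon z (by obtain ⟨j, hj⟩ := hz; exact ⟨j, hj⟩)
    exact hi.trans_le (hpick (fun i => |Φ z i|) i)
  have hidxneg : ∀ z, idx (-z) = idx z := fun z => by
    simp only [idx, hodd, abs_neg]
  let P : ℕ → (Fin (d + 2) → ℤ) → Prop := fun k u =>
    (∀ j : Fin (d + 2), k ≤ j.val → u j = 0) ∧ (∀ j, |u j| ≤ M) ∧ ∃ j, |u j| = M
  let r : ℕ → (Fin (d + 2) → ℤ) → (Fin (d + 2) → ℤ) → Prop := fun k u v =>
    P k u ∧ P k v ∧ ∀ j, |u j - v j| ≤ k
  have hPneg : ∀ k u, P k u → P k (-u) := by
    rintro k u ⟨h1, h2, j, h3⟩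
    exact ⟨fun j hj => by simp [h1 j hj], fun j => by simpa using h2 j, j, by simpa using h3⟩
  have : Fact (Nat.Prime 2) := ⟨Nat.prime_two⟩
  have key := core 2 (fun z : Fin (d + 2) → ℤ => -z) (by funext z; simp) d (d + 2) r ?_ ?_
    (fun z => (idx z, if 0 < Φ z (idx z) then 0 else 1)) ?_ ?_
  · omega
  · rintro k u v ⟨hu, hv, hd⟩
    refine ⟨hPneg k u hu, hPneg k v hv, fun j => ?_⟩
    have := hd j
    simp only [Pi.neg_apply]
    rw [abs_le] at this ⊢
    constructor <;> linarith [this.1, this.2]
  · intro k hk z hz hbd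
    let v : Fin (d + 2) → ℤ := fun j => if j.val = k then M else 0
    let H : ℕ → (Fin (d + 2) → ℤ) → (Fin (d + 2) → ℤ) := fun i y j =>
      if j.val = k then min (i : ℤ) M else max (-(2 * M - i)) (min (y j) (2 * M - i))
    have hv : P (k + 1) v := by
      refine ⟨fun j hj => ?_, fun j => ?_, ⟨k, hk⟩, ?_⟩
      · have : j.val ≠ k := by omega
        simp [v, this]
      · simp only [v]; split_ifs <;> simp
      · simp [v]
    have hH : ∀ a ≤ 2 * M, ∀ y, P k y → P (k + 1) (H a y) := by
      rintro a ha y ⟨h1, h2, j0, h3⟩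
      have ha' : (a : ℤ) ≤ 2 * M := by exact_mod_cast ha
      have ha0 : (0 : ℤ) ≤ a := Int.natCast_nonneg a
      refine ⟨fun j hj => ?_, fun j => ?_, ?_⟩
      · have hjk : j.val ≠ k := by omega
        have := h1 j (by omega)
        simp only [H, hjk, if_false, this]
        omega
      · have := abs_le.mp (h2 j)
        simp only [H]
        rw [abs_le]
        split_ifs <;> omega
      · by_cases haM : (M : ℤ) ≤ a
        · refine ⟨⟨k, hk⟩, ?_⟩
          simp only [H, if_true]
          rw [min_eq_right haM]; simp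
        · refine ⟨j0, ?_⟩
          have hjk : j0.val ≠ k := by
            intro h
            rw [h1 j0 h.ge] at h3
            simp at h3
            omega
          have h4 := abs_le.mp (h2 j0)
          simp only [H, hjk, if_false]
          rw [min_eq_left (by omega), max_eq_right (by omega)]
          exact h3
    refine fill (r k) (r (k + 1)) H (2 * M) v ?_ ?_ ?_ ?_ k z hz hbd
    · rintro y ⟨⟨h1, h2, -⟩, -, -⟩
      funext j
      have h4 := abs_le.mp (h2 j)
      simp only [H]
      split_ifs with hj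
      · rw [h1 j hj.ge]; simp
      · omega
    · intro y _
      funext j
      simp only [H, v]
      split_ifs with hj
      · push_cast; omega
      · push_cast; omega
    · exact ⟨hv, hv, fun j => by simp; positivity⟩
    · intro i hi y y' hyy a ha b hb
      have ha' : a ≤ 2 * M := by rcases ha with rfl | rfl <;> omega
      have hb' : b ≤ 2 * M := by rcases hb with rfl | rfl <;> omega
      refine ⟨hH a ha' y hyy.1, hH b hb' y' hyy.2.1, fun j => ?_⟩
      have h4 := abs_le.mp (hyy.2.2 j)
      have hab : (a : ℤ) ≤ b + 1 ∧ (b : ℤ) ≤ a + 1 := by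
        rcases ha with rfl | rfl <;> rcases hb with rfl | rfl <;> push_cast <;> omega
      simp only [H]
      rw [abs_le]
      push_cast
      split_ifs <;> omega
  · intro k _ y hy
    have h1 := hidx y hy.1.2.2
    simp only [hidxneg, hodd, Prod.mk.injEq, true_and]
    by_cases h : 0 < Φ y (idx y)
    · have : ¬ (0 < -Φ y (idx y)) := by linarith
      simp only [h, this, if_true, if_false]
      simp
    · have : 0 < -Φ y (idx y) := by
        rw [abs_of_nonpos (by linarith)] at h1
        linarith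
      simp only [h, this, if_true, if_false]
      exact zero_eq_two
  · intro k hk u v huv hrow
    simp only at hrow
    have h1 := hidx u huv.1.2.2
    have h2 := hidx v huv.2.1.2.2
    have h3 := hlip u v (fun j => (huv.2.2 j).trans (by exact_mod_cast hk)) (idx u)
    rw [← hrow] at h2
    simp only [Prod.mk.injEq]
    refine ⟨hrow, ?_⟩
    rw [← hrow]
    rw [abs_le] at h3
    by_cases h : 0 < Φ u (idx u)
    · have : 0 < Φ v (idx u) := by
        by_contra h'
        rw [abs_of_pos h] at h1
        rw [abs_of_nonpos (by linarith)] at h2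
        linarith [h3.2]
      simp [h, this]
    · have : ¬ 0 < Φ v (idx u) := by
        intro h'
        rw [abs_of_pos h'] at h2
        rw [abs_of_nonpos (by linarith)] at h1
        linarith [h3.1]
      simp [h, this]

end Pool.Agent.P.MP_a5df39_co
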