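import Mathlib
import Pool.Agent.P.MP_a5df39_co.Shell
import Pool.Agent.P.MP_a5df39_co.Conc

set_option autoImplicit false

namespace Pool.Agent.P.MP_a5df39_co

open Finset

lemma close_pair' (n t : ℕ) (hn : 0 < n) (s : Finset ℤ) (hs : s.Nonempty)
    (X Y : Finset (Fin n → ℤ)) (hX : X ⊆ Fintype.piFinset (fun _ => s))
    (hY : Y ⊆ Fintype.piFinset (fun _ => s))
    (h : Real.exp (-((t : ℝ) ^ 2 / n)) * ((s.card : ℝ) ^ n) ^ 2 < X.card * Y.card) :
    ∃ x ∈ X, ∃ y ∈ Y, (univ.filter (fun i => x i ≠ y i)).card < t := by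
  classical
  have : Nonempty s := hs.to_subtype
  let f : (Fin n → s) → (Fin n → ℤ) := fun x i => (x i : ℤ)
  have hf : Function.Injective f := fun x y hxy => funext (fun i => Subtype.ext (congrFun hxy i))
  have hcard : ∀ Z : Finset (Fin n → ℤ), Z ⊆ Fintype.piFinset (fun _ => s) →
      (univ.filter (fun x => f x ∈ Z)).card = Z.card := by
    intro Z hZ
    rw [← card_image_of_injective _ hf]
    congr 1
    ext z
    simp only [mem_image, mem_filter, mem_univ, true_and]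
    constructor
    · rintro ⟨x, hx, rfl⟩; exact hx
    · intro hz
      exact ⟨fun i => ⟨z i, Fintype.mem_piFinset.mp (hZ hz) i⟩, hz, rfl⟩
  obtain ⟨x, hx, y, hy, hxy⟩ := close_pair (α := s) n t hn (univ.filter (fun x => f x ∈ X))
    (univ.filter (fun x => f x ∈ Y)) (by rw [hcard X hX, hcard Y hY, Fintype.card_coe]; exact h)
  refine ⟨f x, (mem_filter.mp hx).2, f y, (mem_filter.mp hy).2, ?_⟩
  have : univ.filter (fun i => f x i ≠ f y i) = univ.filter (fun i => x i ≠ y i) := by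
    ext i
    simp only [mem_filter, mem_univ, true_and, f, ne_eq, Subtype.ext_iff]
  rw [this]
  exact hxy

/-- The lattice cube of radius `R`. -/
noncomputable def box (n R : ℕ) : Finset (Fin n → ℤ) :=
  Fintype.piFinset (fun _ => Icc (-(R : ℤ)) R)

lemma mem_box {n R : ℕ} {x : Fin n → ℤ} : x ∈ box n R ↔ ∀ j, |x j| ≤ R := by
  simp [box, abs_le]

lemma card_Icc' (R : ℕ) : (Icc (-(R : ℤ)) R).card = 2 * R + 1 := by
  rw [Int.card_Icc]; omega

lemma card_box (n R : ℕ) : (box n R).card = (2 * R + 1) ^ n := by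
  rw [box, Fintype.card_piFinset, prod_const, card_Icc', card_univ, Fintype.card_fin]

lemma count_le {n R k : ℕ} (hk : k ≤ R) (p : (Fin n → ℤ) → Prop) [DecidablePred p]
    (u v : Fin n → ℤ) (huv : ∀ j, |u j - v j| ≤ (k : ℤ)) :
    (((box n R).filter (fun x => p (u + x))).card : ℝ) ≤
      ((box n R).filter (fun x => p (v + x))).card +
        (((2 * R + 1 : ℕ) : ℝ) ^ n - ((2 * (R - k) + 1 : ℕ) : ℝ) ^ n) := by
  classical
  have hsub : box n (R - k) ⊆ box n R := by
    intro x hx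
    rw [mem_box] at hx ⊢
    intro j
    exact (hx j).trans (by exact_mod_cast Nat.sub_le R k)
  have h1 : (box n R).filter (fun x => p (u + x)) ⊆
      (box n (R - k)).filter (fun x => p (u + x)) ∪ (box n R \ box n (R - k)) := by
    intro x hx
    rw [mem_filter] at hx
    by_cases h : x ∈ box n (R - k)
    · exact mem_union_left _ (mem_filter.mpr ⟨h, hx.2⟩)
    · exact mem_union_right _ (mem_sdiff.mpr ⟨hx.1, h⟩)
  have h2 : ((box n (R - k)).filter (fun x => p (u + x))).card ≤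
      ((box n R).filter (fun x => p (v + x))).card := by
    refine card_le_card_of_injOn (fun x => x + (u - v)) ?_ (fun x _ y _ h => by simpa using h)
    intro x hx
    simp only [coe_filter, Set.mem_ofPred_eq, mem_box] at hx ⊢
    refine ⟨fun j => ?_, ?_⟩
    · have e1 := abs_le.mp (hx.1 j)
      have e2 := abs_le.mp (huv j)
      simp only [Pi.add_apply, Pi.sub_apply]
      rw [abs_le]
      omega
    · have : v + (x + (u - v)) = u + x := by abel
      rw [this]; exact hx.2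
  have h3 := (card_le_card h1).trans (card_union_le _ _)
  have h4 := card_sdiff_add_card_eq_card hsub
  rw [card_box, card_box] at h4
  have h5 : (((box n R \ box n (R - k)).card : ℕ) : ℝ) + ((2 * (R - k) + 1 : ℕ) : ℝ) ^ n =
      ((2 * R + 1 : ℕ) : ℝ) ^ n := by exact_mod_cast h4
  have h6 : (((box n R).filter (fun x => p (u + x))).card : ℝ) ≤
      ((box n R).filter (fun x => p (v + x))).card + ((box n R \ box n (R - k)).card : ℕ) := by
    exact_mod_cast h3.trans (Nat.add_le_add_right h2 _)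
  linarith

lemma err_le (n : ℕ) (hn : 1 ≤ n) :
    ((2 * (2 * n ^ 4) + 1 : ℕ) : ℝ) ^ n - ((2 * (2 * n ^ 4 - n) + 1 : ℕ) : ℝ) ^ n ≤
      ((2 * (2 * n ^ 4) + 1 : ℕ) : ℝ) ^ n / (2 * (n : ℝ) ^ 2) := by
  have h1 : n ≤ 2 * n ^ 4 := by
    have := Nat.le_self_pow (n := 4) (by norm_num) n
    omega
  have hn' : (1 : ℝ) ≤ n := by exact_mod_cast hn
  have h1' : (n : ℝ) ≤ 2 * (n : ℝ) ^ 4 := by exact_mod_cast h1
  set W : ℝ := ((2 * (2 * n ^ 4) + 1 : ℕ) : ℝ) with hW
  have hW1 : W = 4 * (n : ℝ) ^ 4 + 1 := by rw [hW]; push_cast; ring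
  have hW0 : 0 < W := by rw [hW1]; positivity
  have h2 : ((2 * (2 * n ^ 4 - n) + 1 : ℕ) : ℝ) = W * (1 + -(2 * n / W)) := by
    push_cast [Nat.cast_sub h1]
    field_simp
    rw [hW1]; ring
  have h3 : 2 * n / W ≤ 1 := by
    rw [div_le_one hW0, hW1]; linarith
  have h4 := one_add_mul_le_pow (a := -(2 * n / W)) (by linarith) n
  have h5 : (n : ℝ) * (2 * n / W) ≤ 1 / (2 * (n : ℝ) ^ 2) := by
    rw [← mul_div_assoc, div_le_div_iff₀ hW0 (by positivity), hW1]
    nlinarith
  rw [h2, mul_pow]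
  have h6 : 0 < W ^ n := pow_pos hW0 n
  have h7 : W ^ n * (1 - 1 / (2 * (n : ℝ) ^ 2)) ≤ W ^ n * (1 + -(2 * n / W)) ^ n := by
    apply mul_le_mul_of_nonneg_left _ h6.le
    linarith
  have h8 : W ^ n / (2 * (n : ℝ) ^ 2) = W ^ n * (1 / (2 * (n : ℝ) ^ 2)) := by ring
  linarith

lemma far_pair (d t M : ℕ) (hM : 0 < M)
    (ht : Real.exp (-((t : ℝ) ^ 2 / (d + 2 : ℕ))) < 1 / (4 * ((d + 2 : ℕ) : ℝ) ^ 2))
    (χ : (Fin (d + 2) → ℤ) → Fin (d + 2)) :
    ∃ x y : Fin (d + 2) → ℤ, χ x = χ y ∧ (∀ j, |(x + y) j| ≤ (2 * (2 * (d + 2) ^ 4) : ℕ)) ∧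
      (univ.filter (fun j => (x + y) j ≠ 0)).card < t ∧
      ∃ j, (M : ℤ) ≤ |x j| + (2 * (d + 2) ^ 4 : ℕ) := by
  classical
  revert χ
  set n := d + 2 with hn
  intro χ
  set R := 2 * n ^ 4 with hR
  have hnR : n ≤ R := by
    have := Nat.le_self_pow (n := 4) (by norm_num) n
    omega
  have hn0 : (0 : ℝ) < n := by positivity
  set W : ℝ := ((2 * R + 1 : ℕ) : ℝ) ^ n with hW
  have hW0 : 0 < W := by positivity
  set E : ℝ := W / (2 * (n : ℝ) ^ 2) with hE
  have hE0 : 0 ≤ E := by positivity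
  let A : Fin n → (Fin n → ℤ) → Finset (Fin n → ℤ) := fun i z =>
    (box n R).filter (fun x => χ (z + x) = i)
  have hAlip : ∀ i (u v : Fin n → ℤ), (∀ j, |u j - v j| ≤ (n : ℤ)) →
      ((A i u).card : ℝ) ≤ (A i v).card + E := by
    intro i u v huv
    have h1 := count_le hnR (fun x => χ x = i) u v huv
    have h2 := err_le n (by omega)
    simp only [A]
    linarith
  have hAsum : ∀ z, ∑ i, ((A i z).card : ℝ) = W := by
    intro z
    have := card_eq_sum_card_fiberwise (f := fun x => χ (z + x)) (s := box n R) (t := univ)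
      (fun x _ => mem_univ _)
    rw [card_box] at this
    rw [hW]
    exact_mod_cast this.symm
  obtain ⟨z, ⟨j0, hj0⟩, hz⟩ := shell d M hM
    (fun z i => ((A i.castSucc z).card : ℝ) - (A i.castSucc (-z)).card) E hE0
    (fun z i => by simp) (fun u v huv i => by
      have e1 := hAlip i.castSucc u v huv
      have e2 := hAlip i.castSucc v u (fun j => by rw [abs_sub_comm]; exact huv j)
      have e3 := hAlip i.castSucc (-u) (-v) (fun j => by
        simp only [Pi.neg_apply]; rw [neg_sub_neg, abs_sub_comm]; exact huv j)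
      have e4 := hAlip i.castSucc (-v) (-u) (fun j => by
        simp only [Pi.neg_apply]; rw [neg_sub_neg]; exact huv j)
      rw [abs_le]
      constructor <;> linarith)
  have hall : ∀ i : Fin n, ((A i z).card : ℝ) - (A i (-z)).card ≤ n * E := by
    intro i
    have hn1 : (1 : ℝ) ≤ n := by exact_mod_cast (by omega : 1 ≤ n)
    refine Fin.lastCases ?_ (fun i => ?_) i
    · have e1 := hAsum z
      have e2 := hAsum (-z)
      rw [Fin.sum_univ_castSucc] at e1 e2
      have e3 : ∑ i : Fin (d + 1), (((A i.castSucc (-z)).card : ℝ) - (A i.castSucc z).card) ≤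
          ∑ _i : Fin (d + 1), E :=
        sum_le_sum (fun i _ => by have := (abs_le.mp (hz i)).1; linarith)
      rw [sum_sub_distrib, sum_const, card_univ, Fintype.card_fin, nsmul_eq_mul] at e3
      have e4 : ((d + 1 : ℕ) : ℝ) * E ≤ n * E := by
        gcongr; omega
      linarith
    · have := (abs_le.mp (hz i)).2
      nlinarith
  obtain ⟨i, hi⟩ : ∃ i : Fin n, W / n ≤ (A i z).card := by
    by_contra hcon
    push Not at hcon
    have := sum_lt_sum_of_nonempty (s := (univ : Finset (Fin n))) univ_nonempty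
      (fun i _ => hcon i)
    rw [hAsum, sum_const, card_univ, Fintype.card_fin, nsmul_eq_mul,
      mul_div_cancel₀ _ hn0.ne'] at this
    exact lt_irrefl _ this
  have hnE : n * E = W / (2 * n) := by rw [hE]; field_simp
  have hWn : W / n = W / (2 * n) + W / (2 * n) := by field_simp; ring
  have hi1 : W / (2 * n) ≤ (A i z).card := by
    have : 0 ≤ W / (2 * n) := by positivity
    linarith
  have hi2 : W / (2 * n) ≤ (A i (-z)).card := by
    have := hall i
    linarith
  obtain ⟨x, hx, y, hy, hxy⟩ := close_pair' n t (by omega) (Icc (-(R : ℤ)) R)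
    (nonempty_Icc.mpr (by omega)) (A i z) ((A i (-z)).image (fun y => -y))
    (filter_subset _ _) (by
      intro y hy
      obtain ⟨y', hy', rfl⟩ := mem_image.mp hy
      have := mem_box.mp (mem_filter.mp hy').1
      exact mem_box.mpr (fun j => by simpa using this j)) (by
      rw [card_image_of_injective _ neg_injective, card_Icc', ← hW]
      calc Real.exp (-((t : ℝ) ^ 2 / n)) * W ^ 2 < 1 / (4 * (n : ℝ) ^ 2) * W ^ 2 := by gcongr
        _ = (W / (2 * n)) * (W / (2 * n)) := by field_simp; ring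
        _ ≤ _ := by gcongr)
  obtain ⟨y', hy', rfl⟩ := mem_image.mp hy
  obtain ⟨hx1, hx2⟩ := mem_filter.mp hx
  obtain ⟨hy1, hy2⟩ := mem_filter.mp hy'
  rw [mem_box] at hx1 hy1
  have hsum : z + x + (-z + y') = x + y' := by abel
  refine ⟨z + x, -z + y', hx2.trans hy2.symm, fun j => ?_, ?_, j0, ?_⟩
  · rw [hsum]
    have e1 := abs_le.mp (hx1 j)
    have e2 := abs_le.mp (hy1 j)
    simp only [Pi.add_apply]
    rw [abs_le]
    omega
  · rw [hsum]
    refine lt_of_eq_of_lt ?_ hxy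
    congr 1
    ext j
    simp only [mem_filter, mem_univ, true_and, Pi.add_apply, Pi.neg_apply, ne_eq,
      add_eq_zero_iff_eq_neg]
  · have e1 := hx1 j0
    have e2 : |z j0| ≤ |(z + x) j0| + |x j0| := by
      have := abs_sub (z j0 + x j0) (x j0)
      simpa using this
    omega

/-- Vectors with bounded entries supported on a set of `T` coordinates. -/
noncomputable def poles (n B T : ℕ) : Finset (Fin n → ℤ) :=
  (powersetCard (min T n) (univ : Finset (Fin n))).biUnion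
    (fun S => Fintype.piFinset (fun j => if j ∈ S then Icc (-(B : ℤ)) B else {0}))

lemma card_poles (n B T : ℕ) (hn : 1 ≤ n) : (poles n B T).card ≤ (n * (2 * B + 1)) ^ T := by
  classical
  refine card_biUnion_le.trans ?_
  have h1 : ∀ S ∈ powersetCard (min T n) (univ : Finset (Fin n)),
      (Fintype.piFinset (fun j => if j ∈ S then Icc (-(B : ℤ)) B else {0})).card =
        (2 * B + 1) ^ (min T n) := by
    intro S hS
    rw [Fintype.card_piFinset]
    simp only [apply_ite card, card_Icc', card_singleton, prod_ite_mem, univ_inter, prod_const,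
      (mem_powersetCard.mp hS).2]
  rw [sum_congr rfl h1, sum_const, card_powersetCard, card_univ, Fintype.card_fin, smul_eq_mul]
  calc n.choose (min T n) * (2 * B + 1) ^ min T n ≤ n ^ (min T n) * (2 * B + 1) ^ min T n :=
        Nat.mul_le_mul_right _ (Nat.choose_le_pow _ _)
    _ = (n * (2 * B + 1)) ^ min T n := (mul_pow _ _ _).symm
    _ ≤ _ := Nat.pow_le_pow_right (by positivity) (min_le_left _ _)

lemma mem_poles {n B T : ℕ} {a : Fin n → ℤ} (h1 : ∀ j, |a j| ≤ (B : ℤ))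
    (h2 : (univ.filter (fun j => a j ≠ 0)).card ≤ T) : a ∈ poles n B T := by
  classical
  obtain ⟨S, hS1, hS2, hS3⟩ := exists_subsuperset_card_eq (n := min T n)
    (subset_univ (univ.filter (fun j => a j ≠ 0)))
    (le_min h2 ((card_le_univ _).trans (by simp))) (by simp)
  refine mem_biUnion.mpr ⟨S, mem_powersetCard.mpr ⟨hS2, hS3⟩, Fintype.mem_piFinset.mpr ?_⟩
  intro j
  split_ifs with hj
  · exact mem_Icc.mpr (abs_le.mp (h1 j))
  · rw [mem_singleton]
    by_contra h
    exact hj (hS1 (mem_filter.mpr ⟨mem_univ _, h⟩))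

lemma poles_good (d T : ℕ)
    (ht : Real.exp (-(((T + 1 : ℕ) : ℝ) ^ 2 / (d + 2 : ℕ))) < 1 / (4 * ((d + 2 : ℕ) : ℝ) ^ 2))
    (χ : (Fin (d + 2) → ℤ) → Fin (d + 2)) :
    ∃ c ∈ poles (d + 2) (2 * (2 * (d + 2) ^ 4)) T, ∃ S : Set (Fin (d + 2) → ℤ), S.Infinite ∧
      (∀ s ∈ S, ∀ s' ∈ S, χ s = χ s') ∧ S = (fun s => 2 • c - s) '' S := by
  classical
  by_contra hcon
  push Not at hcon
  let S : (Fin (d + 2) → ℤ) → Fin (d + 2) → Set (Fin (d + 2) → ℤ) := fun c i =>
    {x | χ x = i ∧ χ (2 • c - x) = i}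
  have hfin : ∀ c ∈ poles (d + 2) (2 * (2 * (d + 2) ^ 4)) T, ∀ i, (S c i).Finite := by
    intro c hc i
    by_contra hinf
    refine hcon c hc (S c i) hinf (fun s hs s' hs' => hs.1.trans hs'.1.symm) ?_
    ext x
    constructor
    · intro hx
      exact ⟨2 • c - x, ⟨hx.2, by simpa using hx.1⟩, by simp⟩
    · rintro ⟨y, hy, rfl⟩
      exact ⟨hy.2, by simpa using hy.1⟩
  have hU : (⋃ c ∈ (poles (d + 2) (2 * (2 * (d + 2) ^ 4)) T : Set (Fin (d + 2) → ℤ)),
      ⋃ i, S c i).Finite :=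
    (finite_toSet _).biUnion (fun c hc => Set.finite_iUnion (hfin c hc))
  obtain ⟨B, hB⟩ := (hU.image (fun x => ∑ j, |x j|)).bddAbove
  obtain ⟨x, y, hxy, h1, h2, j, h3⟩ := far_pair d (T + 1) (B.natAbs + 2 * (d + 2) ^ 4 + 1)
    (by omega) ht (fun x => χ (2 • x))
  have hmem : 2 • x ∈ ⋃ c ∈ (poles (d + 2) (2 * (2 * (d + 2) ^ 4)) T : Set (Fin (d + 2) → ℤ)),
      ⋃ i, S c i := by
    refine Set.mem_iUnion₂.mpr ⟨x + y, mem_poles h1 (by omega), Set.mem_iUnion.mpr
      ⟨χ (2 • x), rfl, ?_⟩⟩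
    have : 2 • (x + y) - 2 • x = 2 • y := by rw [smul_add]; abel
    rw [this]
    exact hxy.symm
  have h4 : ∑ j, |(2 • x) j| ≤ B := hB ⟨_, hmem, rfl⟩
  have h5 : |(2 • x) j| ≤ ∑ j, |(2 • x) j| :=
    single_le_sum (f := fun j => |(2 • x) j|) (fun j _ => abs_nonneg _) (mem_univ j)
  have h6 : |(2 • x) j| = 2 * |x j| := by simp [abs_mul]
  have h7 := abs_nonneg (x j)
  generalize 2 * (d + 2) ^ 4 = R at h3
  omega

lemma main_bound (n : ℕ) (hn : 2 ≤ n) :
    ∃ C : Finset (Fin n → ℤ),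
      (∀ χ : (Fin n → ℤ) → Fin n, ∃ c ∈ C, ∃ S : Set (Fin n → ℤ), S.Infinite ∧
        (∀ s ∈ S, ∀ s' ∈ S, χ s = χ s') ∧ S = (fun s => 2 • c - s) '' S) ∧
      (C.card : ℝ) ≤ Real.exp (18 * √(n * Real.log n) * Real.log n) := by
  obtain ⟨d, rfl⟩ : ∃ d, n = d + 2 := ⟨n - 2, by omega⟩
  set n := d + 2 with hnd
  have hn2 : (2 : ℝ) ≤ n := by exact_mod_cast hn
  have hlog : 0 < Real.log n := Real.log_pos (by linarith)
  set T := ⌊2 * √(n * Real.log n)⌋₊ with hT
  have hT1 : (T : ℝ) ≤ 2 * √(n * Real.log n) := Nat.floor_le (by positivity)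
  have hT2 : 2 * √(n * Real.log n) < (T + 1 : ℕ) := by
    push_cast; exact Nat.lt_floor_add_one _
  refine ⟨poles n (2 * (2 * n ^ 4)) T, poles_good d T ?_, ?_⟩
  · have h1 : (2 * √(n * Real.log n)) ^ 2 < ((T + 1 : ℕ) : ℝ) ^ 2 := by gcongr
    rw [mul_pow, Real.sq_sqrt (by positivity)] at h1
    have h2 : 4 * Real.log n < ((T + 1 : ℕ) : ℝ) ^ 2 / n := by
      rw [lt_div_iff₀ (by linarith)]; linarith
    calc Real.exp (-(((T + 1 : ℕ) : ℝ) ^ 2 / n)) < Real.exp (-(4 * Real.log n)) :=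
          Real.exp_lt_exp.mpr (by linarith)
      _ = 1 / (n : ℝ) ^ 4 := by
          rw [Real.exp_neg, show 4 * Real.log n = ((4 : ℕ) : ℝ) * Real.log n by norm_num,
            Real.exp_nat_mul, Real.exp_log (by linarith), one_div]
      _ ≤ 1 / (4 * (n : ℝ) ^ 2) := by
          apply one_div_le_one_div_of_le (by positivity)
          nlinarith [sq_nonneg ((n : ℝ) ^ 2 - 4), mul_le_mul hn2 hn2 (by norm_num) (by linarith)]
  · have h1 : ((poles n (2 * (2 * n ^ 4)) T).card : ℝ) ≤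
        ((n : ℝ) * (2 * (2 * (2 * (n : ℝ) ^ 4)) + 1)) ^ T := by
      exact_mod_cast card_poles n (2 * (2 * n ^ 4)) T (by omega)
    have h2 : (n : ℝ) * (2 * (2 * (2 * (n : ℝ) ^ 4)) + 1) ≤ (n : ℝ) ^ 9 := by
      have e1 : (2 : ℝ) ^ 4 ≤ (n : ℝ) ^ 4 := by gcongr
      have e2 : (n : ℝ) ^ 9 = n * ((n : ℝ) ^ 4 * (n : ℝ) ^ 4) := by ring
      rw [e2]
      apply mul_le_mul_of_nonneg_left _ (by linarith)
      nlinarith
    calc _ ≤ _ := h1
      _ ≤ ((n : ℝ) ^ 9) ^ T := by gcongr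
      _ = Real.exp (T * (9 * Real.log n)) := by
          rw [Real.exp_nat_mul, show 9 * Real.log n = ((9 : ℕ) : ℝ) * Real.log n by norm_num,
            Real.exp_nat_mul, Real.exp_log (by linarith)]
      _ ≤ _ := by
          apply Real.exp_le_exp.mpr
          nlinarith

lemma eventually_small (a : ℝ) (ha : 1 < a) :
    ∃ N : ℕ, ∀ n ≥ N, Real.exp (18 * √(n * Real.log n) * Real.log n) < a ^ n := by
  have hb : 0 < Real.log a := Real.log_pos ha
  have h1 := (isLittleO_log_rpow_rpow_atTop (s := 1) 3 (by norm_num)).bound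
    (c := (Real.log a / 36) ^ 2) (by positivity)
  obtain ⟨x0, hx0⟩ := Filter.eventually_atTop.mp h1
  refine ⟨⌈x0⌉₊ + 2, fun n hn => ?_⟩
  have hn2 : (2 : ℝ) ≤ n := by exact_mod_cast (by omega : 2 ≤ n)
  have hn3 : x0 ≤ n := (Nat.le_ceil x0).trans (by exact_mod_cast (by omega : ⌈x0⌉₊ ≤ n))
  have hlog : 0 < Real.log n := Real.log_pos (by linarith)
  have h2 := hx0 n hn3
  rw [Real.rpow_one, show (3 : ℝ) = ((3 : ℕ) : ℝ) by norm_num, Real.rpow_natCast,
    Real.norm_of_nonneg (by positivity), Real.norm_of_nonneg (by positivity)] at h2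
  have h3 : (√(n * Real.log n) * Real.log n) ^ 2 ≤ (Real.log a / 36 * n) ^ 2 := by
    rw [mul_pow, Real.sq_sqrt (by positivity)]
    calc n * Real.log n * Real.log n ^ 2 = n * Real.log n ^ 3 := by ring
      _ ≤ n * ((Real.log a / 36) ^ 2 * n) := by gcongr
      _ = _ := by ring
  have h4 := le_of_sq_le_sq h3 (by positivity)
  rw [← Real.exp_log (by linarith : 0 < a), ← Real.exp_nat_mul, Real.exp_lt_exp]
  nlinarith

end Pool.Agent.P.MP_a5df39_co
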